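import Pool.Agent.H14R2.RC.Defs
import Pool.Agent.H14R2.RC.S.TRANS

namespace RC14
open scoped InnerProductSpace
open Finset

namespace CHAR

/-- transitivity on embeddings of an arbitrary finite type -/
lemma trans_emb {ι : Type*} [Fintype ι] {n : ℕ} (h : Fintype.card ι + 2 ≤ n) (a b : ι ↪ Fin n) :
    ∃ g : Alt n, ∀ i, (g : Equiv.Perm (Fin n)) (a i) = b i := by
  let e := Fintype.equivFin ι
  obtain ⟨g, hg⟩ := TRANS h (e.symm.toEmbedding.trans a) (e.symm.toEmbedding.trans b)
  refine ⟨g, fun i => ?_⟩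
  have := DFunLike.congr_fun hg (e i)
  simpa using this

variable {j n : ℕ}

/-- `δ_a` -/
noncomputable def dl (a : Tup j n) : V j n := EuclideanSpace.single a 1

lemma rep_dl (g : Alt n) (a : Tup j n) :
    repA j n g (dl a) = dl (mv (g : Equiv.Perm (Fin n)) a) := by
  ext b
  rw [repA_apply]
  have hiff : mv (g : Equiv.Perm (Fin n))⁻¹ b = a ↔ b = mv (g : Equiv.Perm (Fin n)) a := by
    constructor
    · rintro rfl
      rw [← mv_mul]; simp
    · rintro rfl
      rw [← mv_mul]; simp
  simp only [dl, PiLp.single_apply]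
  by_cases hb : b = mv (g : Equiv.Perm (Fin n)) a
  · rw [if_pos hb, if_pos (hiff.2 hb)]
  · rw [if_neg hb, if_neg (fun h => hb (hiff.1 h))]

/-- the projection commutes with the group -/
lemma proj_comm (W : Submodule ℂ (V j n)) (hW : Inv (repA j n) W) (g : Alt n) (v : V j n) :
    W.starProjection (repA j n g v) = repA j n g (W.starProjection v) := by
  refine Submodule.eq_starProjection_of_mem_of_inner_eq_zero ?_ ?_
  · exact hW g _ (Submodule.starProjection_apply_mem W v)
  · intro w hw
    have h1 : w = repA j n g (repA j n g⁻¹ w) := by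
      rw [map_inv]
      exact ((repA j n g).apply_symm_apply w).symm
    have h2 : repA j n g⁻¹ w ∈ W := hW _ _ hw
    rw [← map_sub, h1, LinearIsometryEquiv.inner_map_map]
    exact Submodule.starProjection_inner_eq_zero v _ h2

noncomputable def u (W : Submodule ℂ (V j n)) (a : Tup j n) : V j n := W.starProjection (dl a)

lemma u_mem (W : Submodule ℂ (V j n)) (a : Tup j n) : u W a ∈ W :=
  Submodule.starProjection_apply_mem W _

lemma rep_u (W : Submodule ℂ (V j n)) (hW : Inv (repA j n) W) (g : Alt n) (a : Tup j n) :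
    repA j n g (u W a) = u W (mv (g : Equiv.Perm (Fin n)) a) := by
  rw [u, ← proj_comm W hW, rep_dl, u]

lemma inner_u (W : Submodule ℂ (V j n)) (a : Tup j n) {f : V j n} (hf : f ∈ W) :
    ⟪u W a, f⟫_ℂ = f a := by
  have h1 : ⟪u W a, f⟫_ℂ = ⟪dl a, f⟫_ℂ := by
    have := Submodule.starProjection_inner_eq_zero (K := W) (dl a) f hf
    rw [inner_sub_left, sub_eq_zero] at this
    exact this.symm
  rw [h1, dl, EuclideanSpace.inner_single_left]
  simp

lemma norm_u_eq (W : Submodule ℂ (V j n)) (hW : Inv (repA j n) W) (h : j + 2 ≤ n)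
    (a b : Tup j n) : ‖u W a‖ = ‖u W b‖ := by
  obtain ⟨g, hg⟩ := TRANS h a b
  rw [← hg, ← rep_u W hW]
  exact ((repA j n g).norm_map _).symm

lemma isProj (W : Submodule ℂ (V j n)) :
    LinearMap.IsProj W (W.starProjection : V j n →ₗ[ℂ] V j n) where
  map_mem x := Submodule.starProjection_apply_mem W x
  map_id _ hx := Submodule.starProjection_eq_self_iff.2 hx

lemma sum_norm_u (W : Submodule ℂ (V j n)) :
    ∑ a : Tup j n, ‖u W a‖ ^ 2 = (Module.finrank ℂ W : ℝ) := by
  have h1 : LinearMap.trace ℂ (V j n) (W.starProjection : V j n →ₗ[ℂ] V j n) =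
      (Module.finrank ℂ W : ℂ) := (isProj W).trace
  rw [LinearMap.trace_eq_sum_inner _ (EuclideanSpace.basisFun (Tup j n) ℂ)] at h1
  have h2 : ∀ a : Tup j n, ⟪EuclideanSpace.basisFun (Tup j n) ℂ a,
      (W.starProjection : V j n →ₗ[ℂ] V j n) (EuclideanSpace.basisFun (Tup j n) ℂ a)⟫_ℂ =
      ((‖u W a‖ ^ 2 : ℝ) : ℂ) := by
    intro a
    have h3 : EuclideanSpace.basisFun (Tup j n) ℂ a = dl a := by
      simp [dl]
    rw [h3]
    change ⟪dl a, u W a⟫_ℂ = _
    have h4 := Submodule.starProjection_inner_eq_zero (K := W) (dl a) (u W a) (u_mem W a)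
    rw [inner_sub_left, sub_eq_zero] at h4
    rw [h4]
    change ⟪u W a, u W a⟫_ℂ = _
    rw [inner_self_eq_norm_sq_to_K]
    push_cast
    rfl
  rw [Finset.sum_congr rfl (fun a _ => h2 a)] at h1
  exact_mod_cast h1

lemma card_mul_norm (W : Submodule ℂ (V j n)) (hW : Inv (repA j n) W) (h : j + 2 ≤ n)
    (b : Tup j n) :
    (Fintype.card (Tup j n) : ℝ) * ‖u W b‖ ^ 2 = (Module.finrank ℂ W : ℝ) := by
  rw [← sum_norm_u W, Finset.sum_congr rfl (fun a _ => by rw [norm_u_eq W hW h a b])]
  simp

/-! ### functions with vanishing one-coordinate sums -/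

/-- weighted sum -/
noncomputable def S (F : (Fin j → Fin n) → ℂ) (w : Fin j → Fin n → ℂ) : ℂ :=
  ∑ φ : Fin j → Fin n, F φ * ∏ l, w l (φ l)

/-- summing over an updated coordinate -/
lemma sum_update (l : Fin j) (H : (Fin j → Fin n) → ℂ) :
    ∑ φ : Fin j → Fin n, ∑ y : Fin n, H (Function.update φ l y) = n * ∑ φ, H φ := by
  have h1 : ∑ φ : Fin j → Fin n, ∑ y : Fin n, H (Function.update φ l y) =
      ∑ p : (Fin j → Fin n) × Fin n, H (Function.update p.1 l p.2) := by
    rw [Fintype.sum_prod_type]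
  have h2 : (n : ℂ) * ∑ φ, H φ = ∑ p : (Fin j → Fin n) × Fin n, H p.1 := by
    rw [Fintype.sum_prod_type, Finset.mul_sum]
    simp
  rw [h1, h2]
  have hinv : Function.Involutive
      (fun p : (Fin j → Fin n) × Fin n => (Function.update p.1 l p.2, p.1 l)) := by
    rintro ⟨φ, y⟩
    simp
  exact Fintype.sum_equiv hinv.toPerm _ _ (fun p => rfl)

lemma S_one {F : (Fin j → Fin n) → ℂ} (hn : n ≠ 0)
    (hF : ∀ (φ : Fin j → Fin n) (l : Fin j), ∑ y, F (Function.update φ l y) = 0)
    (w : Fin j → Fin n → ℂ) (l : Fin j) : S F (Function.update w l (fun _ => 1)) = 0 := by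
  have h1 := sum_update l (fun φ => F φ * ∏ l', (Function.update w l (fun _ => (1 : ℂ))) l' (φ l'))
  have h2 : ∀ φ : Fin j → Fin n, ∀ y : Fin n,
      (∏ l', (Function.update w l (fun _ => (1 : ℂ))) l' (Function.update φ l y l')) =
      ∏ l', (Function.update w l (fun _ => (1 : ℂ))) l' (φ l') := by
    intro φ y
    refine Finset.prod_congr rfl fun l' _ => ?_
    by_cases hl : l' = l
    · subst hl; simp
    · simp [Function.update_of_ne hl]
  have h3 : ∑ φ : Fin j → Fin n, ∑ y : Fin n, (F (Function.update φ l y) *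
      ∏ l', (Function.update w l (fun _ => (1 : ℂ))) l' (Function.update φ l y l')) = 0 := by
    refine Finset.sum_eq_zero fun φ _ => ?_
    simp_rw [h2 φ, ← Finset.sum_mul, hF φ l, zero_mul]
  rw [h3] at h1
  have hn' : (n : ℂ) ≠ 0 := by exact_mod_cast hn
  have := (mul_eq_zero.1 h1.symm).resolve_left hn'
  exact this

lemma S_add (F : (Fin j → Fin n) → ℂ) (w : Fin j → Fin n → ℂ) (l : Fin j) (p q : Fin n → ℂ) :
    S F (Function.update w l (fun y => p y + q y)) =
      S F (Function.update w l p) + S F (Function.update w l q) := by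
  unfold S
  rw [← Finset.sum_add_distrib]
  refine Finset.sum_congr rfl fun φ _ => ?_
  rw [← mul_add]
  congr 1
  have key : ∀ r : Fin n → ℂ, ∏ l', (Function.update w l r) l' (φ l') =
      r (φ l) * ∏ l' ∈ univ.erase l, w l' (φ l') := by
    intro r
    rw [← Finset.mul_prod_erase univ _ (mem_univ l)]
    congr 1
    · simp
    · refine Finset.prod_congr rfl fun l' hl' => ?_
      rw [Function.update_of_ne (Finset.ne_of_mem_erase hl')]
  rw [key, key, key, add_mul]

open Classical in
/-- the weights: indicator of `Y` on `D`, indicator of `a l` off `D` -/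
noncomputable def wt (D : Finset (Fin j)) (E : Finset (Fin j)) (Y : Set (Fin n)) (a : Fin j → Fin n)
    (l : Fin j) (y : Fin n) : ℂ :=
  if l ∈ D then (if y ∈ Y then 1 else 0) else
    if l ∈ E then (if y ∈ Y then 0 else 1) else (if y = a l then 1 else 0)

lemma S_flip {F : (Fin j → Fin n) → ℂ} (hn : n ≠ 0)
    (hF : ∀ (φ : Fin j → Fin n) (l : Fin j), ∑ y, F (Function.update φ l y) = 0)
    (Y : Set (Fin n)) (a : Fin j → Fin n) (D : Finset (Fin j)) :
    ∀ E : Finset (Fin j), Disjoint D E →
      S F (wt D E Y a) = (-1) ^ #D * S F (wt ∅ (D ∪ E) Y a) := by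
  classical
  induction D using Finset.induction_on with
  | empty => intro E _; simp
  | insert l D hl ih =>
    intro E hE
    have hlE : l ∉ E := Finset.disjoint_left.1 hE (Finset.mem_insert_self _ _)
    have hDE : Disjoint D (insert l E) := by
      rw [Finset.disjoint_insert_right]
      exact ⟨hl, (Finset.disjoint_insert_left.1 hE).2⟩
    have h1 := ih (insert l E) hDE
    have h2 : wt (insert l D) E Y a = Function.update (wt D (insert l E) Y a) l
        (fun y => if y ∈ Y then (1 : ℂ) else 0) := by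
      funext l' y
      by_cases h : l' = l
      · subst h; simp [wt]
      · rw [Function.update_of_ne h]; simp [wt, h]
    have h3 : wt D (insert l E) Y a = Function.update (wt D (insert l E) Y a) l
        (fun y => if y ∈ Y then (0 : ℂ) else 1) := by
      funext l' y
      by_cases h : l' = l
      · subst h; simp [wt, hl]
      · rw [Function.update_of_ne h]
    have h4 : S F (wt (insert l D) E Y a) + S F (wt D (insert l E) Y a) = 0 := by
      rw [h2]
      conv_lhs => rw [h3]
      rw [Function.update_idem, ← S_add]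
      have : (fun y : Fin n => (if y ∈ Y then (1 : ℂ) else 0) + (if y ∈ Y then (0 : ℂ) else 1)) =
          fun _ => 1 := by
        funext y; split_ifs <;> simp
      rw [this]
      exact S_one hn hF _ l
    have h5 : S F (wt (insert l D) E Y a) = - S F (wt D (insert l E) Y a) := by
      linear_combination h4
    rw [h5, h1, Finset.card_insert_of_notMem hl, pow_succ]
    have h6 : D ∪ insert l E = insert l D ∪ E := by
      ext x; simp only [Finset.mem_union, Finset.mem_insert]; tauto
    rw [h6]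
    ring

lemma S_ext0 (f : V j n) (w : Fin j → Fin n → ℂ) :
    S (ext0 f) w = ∑ c : Tup j n, f c * ∏ l, w l (c l) := by
  unfold S
  symm
  refine Fintype.sum_of_injective (fun c : Tup j n => (c : Fin j → Fin n)) DFunLike.coe_injective
    _ _ ?_ ?_
  · intro φ hφ
    have : ¬ Function.Injective φ := fun h => hφ ⟨⟨φ, h⟩, rfl⟩
    rw [ext0_not f this, zero_mul]
  · intro c
    rw [ext0_inj]


/-- tuples agreeing with `a` off `D` and satisfying `P` on `D` -/
lemma S_wt (f : V j n) (D : Finset (Fin j)) (a : Fin j → Fin n) (P : Fin n → Prop)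
    [DecidablePred P] (w : Fin j → Fin n → ℂ)
    (h1 : ∀ l ∈ D, ∀ y, w l y = if P y then 1 else 0)
    (h2 : ∀ l ∉ D, ∀ y, w l y = if y = a l then 1 else 0) :
    S (ext0 f) w = ∑ c ∈ univ.filter (fun c : Tup j n => (∀ l ∈ D, P (c l)) ∧
      ∀ l ∉ D, c l = a l), f c := by
  classical
  rw [S_ext0, Finset.sum_filter]
  refine Finset.sum_congr rfl fun c _ => ?_
  split_ifs with h
  · have : ∏ l, w l (c l) = 1 := by
      refine Finset.prod_eq_one fun l _ => ?_
      by_cases hl : l ∈ D
      · rw [h1 l hl, if_pos (h.1 l hl)]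
      · rw [h2 l hl, if_pos (h.2 l hl)]
    rw [this, mul_one]
  · have : ∏ l, w l (c l) = 0 := by
      rw [not_and_or] at h
      rcases h with h | h
      · push Not at h
        obtain ⟨l, hl, hP⟩ := h
        exact Finset.prod_eq_zero (mem_univ l) (by rw [h1 l hl, if_neg hP])
      · push Not at h
        obtain ⟨l, hl, hP⟩ := h
        exact Finset.prod_eq_zero (mem_univ l) (by rw [h2 l hl, if_neg hP])
    rw [this, mul_zero]

variable (a b : Tup j n)

open Classical in
/-- coordinates of `a` outside the range of `b` -/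
noncomputable def DD : Finset (Fin j) := univ.filter (fun l => a l ∉ Set.range b)

lemma mem_DD {a b : Tup j n} {l : Fin j} : l ∈ DD a b ↔ a l ∉ Set.range b := by
  simp [DD]

open Classical in
lemma card_A1 : (n - j).descFactorial (#(DD a b)) ≤
    #(univ.filter (fun c : Tup j n => (∀ l ∈ DD a b, c l ∉ Set.range b) ∧
      ∀ l ∉ DD a b, c l = a l)) := by
  classical
  have h0 : Fintype.card ({l // l ∈ DD a b} ↪ {y : Fin n // y ∉ Set.range b}) =
      (n - j).descFactorial (#(DD a b)) := by
    rw [Fintype.card_embedding_eq]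
    congr 1
    · rw [Fintype.card_subtype_compl]
      have : Fintype.card {y : Fin n // y ∈ Set.range b} = j := by
        rw [Set.card_range_of_injective b.injective, Fintype.card_fin]
      rw [Fintype.card_fin]
      congr 1
    · simp
  rw [← h0, ← Finset.card_univ]
  let ψ : ({l // l ∈ DD a b} ↪ {y : Fin n // y ∉ Set.range b}) → Tup j n := fun e =>
    ⟨fun l => if h : l ∈ DD a b then (e ⟨l, h⟩ : Fin n) else a l, by
      intro l l' hll
      simp only at hll
      by_cases h : l ∈ DD a b
      · by_cases h' : l' ∈ DD a b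
        · rw [dif_pos h, dif_pos h'] at hll
          have := e.injective (Subtype.ext hll)
          exact congrArg Subtype.val this
        · rw [dif_pos h, dif_neg h'] at hll
          exfalso
          have h1 := (e ⟨l, h⟩).2
          rw [hll] at h1
          exact h1 (by simpa [mem_DD] using h')
      · by_cases h' : l' ∈ DD a b
        · rw [dif_neg h, dif_pos h'] at hll
          exfalso
          have h1 := (e ⟨l', h'⟩).2
          rw [← hll] at h1
          exact h1 (by simpa [mem_DD] using h)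
        · rw [dif_neg h, dif_neg h'] at hll
          exact a.injective hll⟩
  refine Finset.card_le_card_of_injOn ψ ?_ ?_
  · intro e _
    simp only [Finset.coe_filter, Finset.mem_univ, true_and, Set.mem_ofPred_eq]
    constructor
    · intro l hl
      have : ψ e l = (e ⟨l, hl⟩ : Fin n) := by
        change (if h : l ∈ DD a b then (e ⟨l, h⟩ : Fin n) else a l) = _
        rw [dif_pos hl]
      rw [this]
      exact (e ⟨l, hl⟩).2
    · intro l hl
      change (if h : l ∈ DD a b then (e ⟨l, h⟩ : Fin n) else a l) = _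
      rw [dif_neg hl]
  · intro e _ e' _ hee
    ext ⟨l, hl⟩
    have := DFunLike.congr_fun hee l
    change (if h : l ∈ DD a b then (e ⟨l, h⟩ : Fin n) else a l) =
      (if h : l ∈ DD a b then (e' ⟨l, h⟩ : Fin n) else a l) at this
    rw [dif_pos hl, dif_pos hl] at this
    rw [this]

open Classical in
lemma card_A2 :
    #(univ.filter (fun c : Tup j n => (∀ l ∈ DD a b, c l ∈ Set.range b) ∧
      ∀ l ∉ DD a b, c l = a l)) ≤ (#(DD a b)).factorial := by
  classical
  set D := DD a b with hD
  let Z : Finset (Fin n) := (univ.map b) \ ((univ \ D).map a)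
  have hZ : #Z = #D := by
    have hsub : (univ \ D).map a ⊆ univ.map b := by
      intro y hy
      simp only [Finset.mem_map, Finset.mem_sdiff, Finset.mem_univ, true_and] at hy ⊢
      obtain ⟨l, hl, rfl⟩ := hy
      rw [hD, mem_DD] at hl
      push Not at hl
      simpa using hl
    rw [Finset.card_sdiff_of_subset hsub, Finset.card_map, Finset.card_map,
      Finset.card_sdiff_of_subset (Finset.subset_univ _)]
    have : #D ≤ #(univ : Finset (Fin j)) := Finset.card_le_card (Finset.subset_univ _)
    omega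
  have h0 : Fintype.card ({l // l ∈ D} ↪ {y : Fin n // y ∈ Z}) = (#D).factorial := by
    rw [Fintype.card_embedding_eq, Fintype.card_coe, Fintype.card_coe, hZ,
      Nat.descFactorial_self]
  rw [← h0, ← Fintype.card_coe]
  have hmem : ∀ c : {c // c ∈ univ.filter (fun c : Tup j n => (∀ l ∈ D, c l ∈ Set.range b) ∧
      ∀ l ∉ D, c l = a l)}, ∀ l ∈ D, c.1 l ∈ Z := by
    rintro ⟨c, hc⟩ l hl
    simp only [Finset.mem_filter, Finset.mem_univ, true_and] at hc
    simp only [Z, Finset.mem_sdiff, Finset.mem_map, Finset.mem_univ, true_and, not_exists,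
      not_and]
    refine ⟨?_, ?_⟩
    · simpa using hc.1 l hl
    · intro l' hl' h
      rw [← hc.2 l' hl'] at h
      exact hl' (c.injective h ▸ hl)
  refine Fintype.card_le_of_injective
    (fun c => (⟨fun l => ⟨c.1 l.1, hmem c l.1 l.2⟩, by
      intro l l' hll
      have := congrArg Subtype.val hll
      exact Subtype.ext (c.1.injective this)⟩ : {l // l ∈ D} ↪ {y : Fin n // y ∈ Z})) ?_
  rintro ⟨c, hc⟩ ⟨c', hc'⟩ h
  simp only [Finset.mem_filter, Finset.mem_univ, true_and] at hc hc'
  apply Subtype.ext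
  ext l
  by_cases hl : l ∈ D
  · have := DFunLike.congr_fun h ⟨l, hl⟩
    have := congrArg Subtype.val this
    exact congrArg Fin.val this
  · simp only
    rw [hc.2 l hl, hc'.2 l hl]

lemma inner_bound (hj : 2 * j + 2 ≤ n) (W : Submodule ℂ (V j n)) (hW : Inv (repA j n) W)
    (hL : W ≤ Lvl j n) :
    ‖⟪u W a, u W b⟫_ℂ‖ * ((n - j).choose (#(DD a b))) ≤ ‖u W b‖ ^ 2 := by
  classical
  set f : V j n := u W b with hf
  have hfW : f ∈ W := u_mem W b
  have hfL : ∀ (φ : Fin j → Fin n) (l : Fin j), ∑ y, ext0 f (Function.update φ l y) = 0 :=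
    hL hfW
  have hfa : ∀ c : Tup j n, ⟪u W c, f⟫_ℂ = f c := fun c => inner_u W c hfW
  have hbd : ∀ c : Tup j n, ‖f c‖ ≤ ‖f‖ ^ 2 := by
    intro c
    rw [← hfa c, sq]
    refine (norm_inner_le_norm _ _).trans ?_
    rw [norm_u_eq W hW (by omega) c b]
  -- invariance
  have hinv : ∀ c : Tup j n, (∀ l ∈ DD a b, c l ∉ Set.range b) → (∀ l ∉ DD a b, c l = a l) →
      f c = f a := by
    intro c h1 h2
    let ι := Fin j ⊕ {l // l ∈ DD a b}
    have hcard : Fintype.card ι + 2 ≤ n := by
      have : Fintype.card ι = j + #(DD a b) := by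
        simp [ι]
      have h3 : #(DD a b) ≤ j := by
        have := Finset.card_le_card (Finset.subset_univ (DD a b))
        simpa using this
      omega
    let e1 : ι ↪ Fin n := ⟨Sum.elim b (fun l => a l.1), by
      rintro (x | x) (y | y) hxy
      · simp only [Sum.elim_inl] at hxy; rw [b.injective hxy]
      · simp only [Sum.elim_inl, Sum.elim_inr] at hxy
        exact absurd ⟨x, hxy⟩ (mem_DD.1 y.2)
      · simp only [Sum.elim_inl, Sum.elim_inr] at hxy
        exact absurd ⟨y, hxy.symm⟩ (mem_DD.1 x.2)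
      · simp only [Sum.elim_inr] at hxy
        rw [Subtype.ext (a.injective hxy)]⟩
    let e2 : ι ↪ Fin n := ⟨Sum.elim b (fun l => c l.1), by
      rintro (x | x) (y | y) hxy
      · simp only [Sum.elim_inl] at hxy; rw [b.injective hxy]
      · simp only [Sum.elim_inl, Sum.elim_inr] at hxy
        exact absurd ⟨x, hxy⟩ (h1 y.1 y.2)
      · simp only [Sum.elim_inl, Sum.elim_inr] at hxy
        exact absurd ⟨y, hxy.symm⟩ (h1 x.1 x.2)
      · simp only [Sum.elim_inr] at hxy
        rw [Subtype.ext (c.injective hxy)]⟩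
    obtain ⟨h, hh⟩ := trans_emb hcard e1 e2
    have hb : ∀ k, (h : Equiv.Perm (Fin n)) (b k) = b k := fun k => hh (Sum.inl k)
    have ha : ∀ l (hl : l ∈ DD a b), (h : Equiv.Perm (Fin n)) (a l) = c l :=
      fun l hl => hh (Sum.inr ⟨l, hl⟩)
    have hmb : mv (h : Equiv.Perm (Fin n)) b = b := by ext k; rw [mv_apply, hb]
    have hma : mv (h : Equiv.Perm (Fin n)) a = c := by
      ext l
      rw [mv_apply]
      by_cases hl : l ∈ DD a b
      · rw [ha l hl]
      · have hl' := hl
        rw [mem_DD] at hl'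
        push Not at hl'
        obtain ⟨k, hk⟩ := hl'
        rw [h2 l hl, ← hk, hb]
    have hmb' : mv ((h⁻¹ : Alt n) : Equiv.Perm (Fin n)) b = b := by
      conv_lhs => rw [← hmb]
      rw [← mv_mul]
      simp
    have h3 : repA j n h⁻¹ f = f := by rw [hf, rep_u W hW, hmb']
    have h4 : repA j n h⁻¹ f a = f (mv (h : Equiv.Perm (Fin n)) a) := by
      rw [repA_apply]
      simp
    rw [h3, hma] at h4
    exact h4.symm
  set Y : Set (Fin n) := (Set.range b)ᶜ with hY
  have hn : n ≠ 0 := by omega
  have hflip := S_flip hn hfL Y a (DD a b) ∅ (Finset.disjoint_empty_right _)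
  have hS1 : S (ext0 f) (wt (DD a b) ∅ Y a) =
      ∑ c ∈ univ.filter (fun c : Tup j n => (∀ l ∈ DD a b, c l ∉ Set.range b) ∧
      ∀ l ∉ DD a b, c l = a l), f c := by
    refine S_wt f (DD a b) a (fun y => y ∉ Set.range b) _ ?_ ?_
    · intro l hl y
      simp only [wt, if_pos hl, hY, Set.mem_compl_iff]
    · intro l hl y
      simp [wt, hl]
  have hS2 : S (ext0 f) (wt ∅ (DD a b ∪ ∅) Y a) =
      ∑ c ∈ univ.filter (fun c : Tup j n => (∀ l ∈ DD a b, c l ∈ Set.range b) ∧
      ∀ l ∉ DD a b, c l = a l), f c := by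
    refine S_wt f (DD a b) a (fun y => y ∈ Set.range b) _ ?_ ?_
    · intro l hl y
      simp only [wt, Finset.union_empty, Finset.notMem_empty, if_false, if_pos hl, hY,
        Set.mem_compl_iff]
      by_cases hy : y ∈ Set.range b <;> simp [hy]
    · intro l hl y
      simp [wt, hl]
  rw [hS1, hS2] at hflip
  have h5 : ∑ c ∈ univ.filter (fun c : Tup j n => (∀ l ∈ DD a b, c l ∉ Set.range b) ∧
      ∀ l ∉ DD a b, c l = a l), f c =
      (#(univ.filter (fun c : Tup j n => (∀ l ∈ DD a b, c l ∉ Set.range b) ∧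
      ∀ l ∉ DD a b, c l = a l)) : ℂ) * f a := by
    rw [Finset.sum_congr rfl (fun c hc => ?_), Finset.sum_const, nsmul_eq_mul]
    simp only [Finset.mem_filter, Finset.mem_univ, true_and] at hc
    exact hinv c hc.1 hc.2
  rw [h5] at hflip
  have h6 := congrArg norm hflip
  rw [norm_mul, norm_mul, norm_pow, norm_neg, norm_one, one_pow, one_mul,
    Complex.norm_natCast] at h6
  have h7 : ‖∑ c ∈ univ.filter (fun c : Tup j n => (∀ l ∈ DD a b, c l ∈ Set.range b) ∧
      ∀ l ∉ DD a b, c l = a l), f c‖ ≤ (#(DD a b)).factorial * ‖f‖ ^ 2 := by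
    refine (norm_sum_le _ _).trans ?_
    refine (Finset.sum_le_sum (fun c _ => hbd c)).trans ?_
    rw [Finset.sum_const, nsmul_eq_mul]
    refine mul_le_mul_of_nonneg_right ?_ (by positivity)
    exact_mod_cast card_A2 a b
  have h8 : (((n - j).descFactorial (#(DD a b)) : ℕ) : ℝ) * ‖f a‖ ≤
      (#(DD a b)).factorial * ‖f‖ ^ 2 := by
    refine le_trans ?_ h7
    rw [← h6]
    refine mul_le_mul_of_nonneg_right ?_ (norm_nonneg _)
    exact_mod_cast card_A1 a b
  rw [Nat.descFactorial_eq_factorial_mul_choose] at h8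
  push_cast at h8
  have h9 : (0 : ℝ) < ((#(DD a b)).factorial : ℝ) := by exact_mod_cast Nat.factorial_pos _
  rw [mul_assoc] at h8
  have h10 := le_of_mul_le_mul_left h8 h9
  rw [hfa a]
  linarith [mul_comm (‖f a‖) ((n - j).choose (#(DD a b)) : ℝ)]

lemma trace_eq (W : Submodule ℂ (V j n)) (hW : Inv (repA j n) W) (g : Alt n) :
    rchr (repA j n) W hW g =
      ∑ a : Tup j n, ⟪u W a, u W (mv (g : Equiv.Perm (Fin n)) a)⟫_ℂ := by
  classical
  have hP : ∀ v, (op (repA j n) g * (W.starProjection : V j n →ₗ[ℂ] V j n)) v ∈ W := fun v =>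
    hW g _ (Submodule.starProjection_apply_mem W v)
  have h1 := LinearMap.trace_restrict_eq_of_forall_mem W
    (op (repA j n) g * (W.starProjection : V j n →ₗ[ℂ] V j n)) hP
  have h2 : rchr (repA j n) W hW g =
      LinearMap.trace ℂ W (LinearMap.restrict (op (repA j n) g *
        (W.starProjection : V j n →ₗ[ℂ] V j n)) (fun x _ => hP x)) := by
    unfold rchr chr
    congr 1
    refine LinearMap.ext fun w => Subtype.ext ?_
    change repA j n g (w : V j n) = repA j n g (W.starProjection (w : V j n))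
    rw [Submodule.starProjection_eq_self_iff.2 w.2]
  rw [h2, h1, LinearMap.trace_eq_sum_inner _ (EuclideanSpace.basisFun (Tup j n) ℂ)]
  refine Finset.sum_congr rfl fun a _ => ?_
  have h3 : EuclideanSpace.basisFun (Tup j n) ℂ a = dl a := by
    simp [dl]
  rw [h3]
  have h4 : (op (repA j n) g * (W.starProjection : V j n →ₗ[ℂ] V j n)) (dl a) =
      u W (mv (g : Equiv.Perm (Fin n)) a) := by
    rw [← rep_u W hW]
    rfl
  rw [h4]
  have h5 := Submodule.starProjection_inner_eq_zero (K := W) (dl a) _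
    (u_mem W (mv (g : Equiv.Perm (Fin n)) a))
  rw [inner_sub_left, sub_eq_zero] at h5
  exact h5

end CHAR

/-- CH2: for an invariant subspace `W` of `Lvl j n`, with `u_a` the projection of `δ_a` to `W`,
`|⟨u_a,u_b⟩| · C(n-j, i) ≤ dim W / |X_j|`, `i` the number of coordinates of `a` outside the range
of `b`. -/
theorem CH2 (j n : ℕ) (hj : 2 * j + 2 ≤ n) (W : Submodule ℂ (V j n)) (hW : Inv (repA j n) W)
    (hL : W ≤ Lvl j n) (a b : Tup j n) :
    ‖⟪W.starProjection (EuclideanSpace.single a 1), W.starProjection (EuclideanSpace.single b 1)⟫_ℂ‖ *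
      ((n - j).choose (#{l : Fin j | a l ∉ Set.range b})) * Fintype.card (Tup j n) ≤
        Module.finrank ℂ W := by
  have h1 := CHAR.inner_bound a b hj W hW hL
  rw [← CHAR.card_mul_norm W hW (by omega) b, mul_comm (Fintype.card (Tup j n) : ℝ)]
  refine mul_le_mul_of_nonneg_right ?_ (by positivity)
  have h2 : (#{l : Fin j | a l ∉ Set.range b}) = #(CHAR.DD a b) := by
    unfold CHAR.DD
    congr 1
  rw [h2]
  exact h1

/-- the character of a subspace of `Lvl j n` is small at permutations with few fixed points -/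
theorem CH1 (j n : ℕ) (hj : 2 * j + 2 ≤ n) (W : Submodule ℂ (V j n)) (hW : Inv (repA j n) W)
    (hL : W ≤ Lvl j n) (g : Alt n) :
    ‖rchr (repA j n) W hW g‖ * Fintype.card (Tup j n) ≤
      Module.finrank ℂ W * ∑ a : Tup j n,
        (1 / ((n - j).choose (#{l : Fin j | a l ∉ Set.range (mv (g : Equiv.Perm (Fin n)) a)})) : ℝ) := by
  rw [CHAR.trace_eq W hW g]
  refine (mul_le_mul_of_nonneg_right (norm_sum_le _ _) (by positivity)).trans ?_
  rw [Finset.sum_mul, Finset.mul_sum]
  refine Finset.sum_le_sum fun a _ => ?_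
  have h1 := CH2 j n hj W hW hL a (mv (g : Equiv.Perm (Fin n)) a)
  have hi : (#{l : Fin j | a l ∉ Set.range (mv (g : Equiv.Perm (Fin n)) a)}) ≤ n - j := by
    have := Finset.card_le_card (Finset.subset_univ
      (univ.filter (fun l : Fin j => a l ∉ Set.range (mv (g : Equiv.Perm (Fin n)) a))))
    simp only [Finset.card_univ, Fintype.card_fin] at this
    omega
  have hpos : (0 : ℝ) <
      ((n - j).choose (#{l : Fin j | a l ∉ Set.range (mv (g : Equiv.Perm (Fin n)) a)})) := by
    exact_mod_cast Nat.choose_pos hi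
  rw [mul_one_div, le_div_iff₀ hpos]
  have h2 : CHAR.u W a = W.starProjection (EuclideanSpace.single a 1) := rfl
  have h3 : CHAR.u W (mv (g : Equiv.Perm (Fin n)) a) =
    W.starProjection (EuclideanSpace.single (mv (g : Equiv.Perm (Fin n)) a) 1) := rfl
  rw [h2, h3]
  calc _ = _ := by ring
    _ ≤ _ := h1

end RC14
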